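import Pool.Agent.N343.TC.Stm

/-!
Project TC (helper343), part WK: the weak formulation from a stream function.
-/

set_option autoImplicit false

open MeasureTheory Set Filter Topology Metric Complex
open scoped ContDiff RealInnerProductSpace ComplexConjugate

namespace Pool.Agent.N284.TC.WK

open Pool.Agent.N343.TC

lemma inner_grad (f : ℂ → ℝ) (x v : ℂ) : inner ℝ v (gradient f x) = fderiv ℝ f x v := by
  rw [real_inner_comm]
  unfold gradient
  exact InnerProductSpace.toDual_symm_apply

lemma grad_re (f : ℂ → ℝ) (x : ℂ) : (gradient f x).re = fderiv ℝ f x 1 := by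
  rw [← inner_grad, Complex.inner]
  simp

lemma grad_im (f : ℂ → ℝ) (x : ℂ) : (gradient f x).im = fderiv ℝ f x I := by
  rw [← inner_grad, Complex.inner]
  simp

/-- a real linear map on the plane -/
lemma lin (T : ℂ →L[ℝ] ℝ) (v : ℂ) : T v = v.re * T 1 + v.im * T I := by
  have h : v = v.re • (1 : ℂ) + v.im • I := by
    apply Complex.ext <;> simp
  conv_lhs => rw [h]
  rw [map_add, map_smul, map_smul, smul_eq_mul, smul_eq_mul]

section

variable {f : ℂ → ℝ}

lemma D_cd (hf : ContDiff ℝ ∞ f) (v : ℂ) : ContDiff ℝ ∞ fun x => fderiv ℝ f x v :=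
  (hf.fderiv_right (m := ∞) (by simp)).clm_apply contDiff_const

lemma D_cs (hc : HasCompactSupport f) (v : ℂ) : HasCompactSupport fun x => fderiv ℝ f x v :=
  (hc.fderiv ℝ).comp_left (g := fun T : ℂ →L[ℝ] ℝ => T v) rfl

lemma D_lip (hf : ContDiff ℝ ∞ f) (hc : HasCompactSupport f) (v : ℂ) :
    ∃ D, LipschitzWith D fun x => fderiv ℝ f x v :=
  ContDiff.lipschitzWith_of_hasCompactSupport (D_cs hc v) (D_cd hf v) (by simp)

lemma symm2 (hf : ContDiff ℝ ∞ f) (x v w : ℂ) :
    lineDeriv ℝ (fun y => fderiv ℝ f y v) x w = lineDeriv ℝ (fun y => fderiv ℝ f y w) x v := by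
  have hd : ∀ v, DifferentiableAt ℝ (fun y => fderiv ℝ f y v) x := fun v =>
    ((D_cd hf v).differentiable (by simp)) x
  rw [(hd v).lineDeriv_eq_fderiv, (hd w).lineDeriv_eq_fderiv]
  have h1 : DifferentiableAt ℝ (fderiv ℝ f) x :=
    ((hf.fderiv_right (m := ∞) (by simp)).differentiable (by simp)) x
  have h2 : ∀ v w, fderiv ℝ (fun y => fderiv ℝ f y v) x w = fderiv ℝ (fderiv ℝ f) x w v := by
    intro v w
    rw [fderiv_clm_apply h1 (differentiableAt_const v)]
    simp
  rw [h2, h2]
  exact (hf.contDiffAt.isSymmSndFDerivAt (by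
    rw [minSmoothness_of_isRCLikeNormedField]
    exact WithTop.coe_le_coe.2 (le_top : (2 : ℕ∞) ≤ ⊤))) w v

/-- integration by parts against a coordinate -/
lemma ibp_coord (hf : ContDiff ℝ ∞ f) (hc : HasCompactSupport f) (T : ℂ →L[ℝ] ℝ) (v : ℂ)
    (hT : T v = 1) : ∫ x, T x * fderiv ℝ f x v = -∫ x, f x := by
  obtain ⟨D, hD⟩ := ContDiff.lipschitzWith_of_hasCompactSupport hc hf (by simp)
  have h := LipschitzWith.integral_lineDeriv_mul_eq (μ := volume) T.lipschitz hD hc v
  have h1 : ∀ x, lineDeriv ℝ T x v = 1 := fun x => by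
    rw [T.differentiableAt.lineDeriv_eq_fderiv, T.fderiv, hT]
  have h2 : ∀ x, lineDeriv ℝ f x (-v) = -fderiv ℝ f x v := fun x => by
    rw [((hf.differentiable (by simp)) x).lineDeriv_eq_fderiv, map_neg]
  simp_rw [h1, h2, one_mul] at h
  rw [h, ← integral_neg]
  refine integral_congr_ae (Eventually.of_forall fun x => ?_)
  show T x * fderiv ℝ f x v = -(-fderiv ℝ f x v * T x)
  ring

/-- the curl of a gradient, weakly -/
lemma curl (hf : ContDiff ℝ ∞ f) (hc : HasCompactSupport f) {H : ℂ → ℝ} {L : NNReal}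
    (hH : LipschitzWith L H) : ∫ x, lineDeriv ℝ H x 1 * fderiv ℝ f x I =
      ∫ x, lineDeriv ℝ H x I * fderiv ℝ f x 1 := by
  obtain ⟨D, hD⟩ := D_lip hf hc 1
  obtain ⟨D', hD'⟩ := D_lip hf hc I
  rw [LipschitzWith.integral_lineDeriv_mul_eq hH hD' (D_cs hc I) 1,
    LipschitzWith.integral_lineDeriv_mul_eq hH hD (D_cs hc 1) I]
  refine integral_congr_ae (Eventually.of_forall fun x => ?_)
  show lineDeriv ℝ (fun y => fderiv ℝ f y I) x (-1) * H x =
    lineDeriv ℝ (fun y => fderiv ℝ f y 1) x (-I) * H x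
  rw [lineDeriv_neg, lineDeriv_neg, symm2 hf]

lemma integ (hf : ContDiff ℝ ∞ f) (hc : HasCompactSupport f) {H : ℂ → ℝ} {L : NNReal}
    (hH : LipschitzWith L H) (v w : ℂ) :
    Integrable fun x => lineDeriv ℝ H x v * fderiv ℝ f x w := by
  have h1 : Integrable fun x => fderiv ℝ f x w :=
    (D_cd hf w).continuous.integrable_of_hasCompactSupport (D_cs hc w)
  have h2 := h1.smul_of_top_left (hH.memLp_lineDeriv (μ := volume) v)
  exact h2.congr (Eventually.of_forall fun x => mul_comm _ _)

end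

theorem main : S_WK := by
  intro σ D Ω u h L L' hO hb hu hh hae f hf hc hs
  obtain ⟨H, hH, hHh⟩ := hh.extend_real
  -- the integrand on the whole plane
  obtain ⟨F, hF⟩ : ∃ F : ℂ → ℝ, F = fun x =>
      -(1 / 2) * (x.re * fderiv ℝ f x 1 + x.im * fderiv ℝ f x I) -
        (lineDeriv ℝ H x 1 * fderiv ℝ f x I - lineDeriv ℝ H x I * fderiv ℝ f x 1) := ⟨_, rfl⟩
  have hz : ∀ x, x ∉ Ω → fderiv ℝ f x = 0 := by
    intro x hx
    have h1 : x ∉ tsupport f := fun h => hx (hs h)
    have h2 : x ∉ tsupport (fderiv ℝ f) := fun h => h1 (tsupport_fderiv_subset ℝ h)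
    exact image_eq_zero_of_notMem_tsupport h2
  have hz' : ∀ x, x ∉ Ω → f x = 0 := fun x hx =>
    image_eq_zero_of_notMem_tsupport fun h => hx (hs h)
  have e1 : ∫ x in Ω, cond σ D x * inner ℝ (gradient u x) (gradient f x) = ∫ x in Ω, F x := by
    refine setIntegral_congr_ae hO.measurableSet ?_
    filter_upwards [hae, hH.ae_differentiableAt_of_real (μ := volume)] with x hx hHx hxO
    obtain ⟨-, -, h3⟩ := hx hxO
    have h4 : gradient h x = gradient H x := by
      unfold gradient
      congr 1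
      apply Filter.EventuallyEq.fderiv_eq
      filter_upwards [hO.mem_nhds hxO] with y hy
      exact hHh (subset_closure hy)
    have h5 : cond σ D x * inner ℝ (gradient u x) (gradient f x) =
        fderiv ℝ f x ((cond σ D x) • gradient u x) := by
      rw [map_smul, ← inner_grad, smul_eq_mul]
    rw [h5, h3, h4, lin, hF]
    have h6 : ((-(1 / 2) : ℝ) • x - I * gradient H x).re =
        -(1 / 2) * x.re + fderiv ℝ H x I := by
      rw [← grad_im]
      simp
    have h7 : ((-(1 / 2) : ℝ) • x - I * gradient H x).im =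
        -(1 / 2) * x.im - fderiv ℝ H x 1 := by
      rw [← grad_re]
      simp
    rw [h6, h7]
    simp only [hHx.lineDeriv_eq_fderiv]
    ring
  have e2 : ∫ x in Ω, F x = ∫ x, F x := by
    refine setIntegral_eq_integral_of_forall_compl_eq_zero fun x hx => ?_
    rw [hF]
    simp [hz x hx]
  have e3 : ∫ x in Ω, f x = ∫ x, f x :=
    setIntegral_eq_integral_of_forall_compl_eq_zero fun x hx => hz' x hx
  rw [e1, e2, e3, hF]
  have i1 : Integrable fun x : ℂ => x.re * fderiv ℝ f x 1 := by
    refine Continuous.integrable_of_hasCompactSupport ?_ ?_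
    · exact Complex.continuous_re.mul (D_cd hf 1).continuous
    · exact (D_cs hc 1).mul_left
  have i2 : Integrable fun x : ℂ => x.im * fderiv ℝ f x I := by
    refine Continuous.integrable_of_hasCompactSupport ?_ ?_
    · exact Complex.continuous_im.mul (D_cd hf I).continuous
    · exact (D_cs hc I).mul_left
  have i3 := integ hf hc hH 1 I
  have i4 := integ hf hc hH I 1
  have i12 : Integrable fun x : ℂ =>
      -(1 / 2) * (x.re * fderiv ℝ f x 1 + x.im * fderiv ℝ f x I) := (i1.add i2).const_mul _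
  have i34 : Integrable fun x : ℂ =>
      lineDeriv ℝ H x 1 * fderiv ℝ f x I - lineDeriv ℝ H x I * fderiv ℝ f x 1 := i3.sub i4
  beta_reduce
  rw [integral_sub i12 i34, integral_const_mul,
    integral_add i1 i2, integral_sub i3 i4, curl hf hc hH, sub_self, sub_zero]
  have j1 : ∫ x : ℂ, x.re * fderiv ℝ f x 1 = -∫ x, f x := by
    have := ibp_coord hf hc Complex.reCLM 1 (by simp)
    simpa using this
  have j2 : ∫ x : ℂ, x.im * fderiv ℝ f x I = -∫ x, f x := by
    have := ibp_coord hf hc Complex.imCLM I (by simp)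
    simpa using this
  rw [j1, j2]
  ring

end Pool.Agent.N284.TC.WK
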